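import Pool.Agent.Lib.MP_14c6b5_gt.Base

set_option autoImplicit false
set_option warn.classDefReducibility false

namespace Pool.Agent.Results.MP_14c6b5_gt.NonResolvableBase

open Set TopologicalSpace

/-- The order topology: generated by the open rays. -/
def rayTopology (L : Type) [LinearOrder L] : TopologicalSpace L :=
  TopologicalSpace.generateFrom {s : Set L | ∃ a : L, s = {x | x < a} ∨ s = {x | a < x}}

/-- A base of a topology: a family of open sets such that every open set containing a point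
contains a member of the family that contains the point. -/
def IsBase {X : Type} (τ : TopologicalSpace X) (B : Set (Set X)) : Prop :=
  (∀ U ∈ B, τ.IsOpen U) ∧ ∀ O : Set X, τ.IsOpen O → ∀ x ∈ O, ∃ U ∈ B, x ∈ U ∧ U ⊆ O

theorem rayTopology_eq (L : Type) [LinearOrder L] : rayTopology L = Preorder.topology L := by
  unfold rayTopology Preorder.topology
  congr 1
  ext s
  constructor
  · rintro ⟨a, h | h⟩
    · exact ⟨a, Or.inr h⟩
    · exact ⟨a, Or.inl h⟩
  · rintro ⟨a, h | h⟩
    · exact ⟨a, Or.inr h⟩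
    · exact ⟨a, Or.inl h⟩

theorem isBase_iff {X : Type} [τ : TopologicalSpace X] (B : Set (Set X)) :
    IsBase τ B ↔ IsTopologicalBasis B := by
  constructor
  · rintro ⟨h1, h2⟩
    exact isTopologicalBasis_of_isOpen_of_nhds h1 (fun a u ha hu => h2 u hu a ha)
  · intro h
    exact ⟨fun U hU => h.isOpen hU, fun O hO x hx => h.exists_subset_of_mem_open hx hO⟩

theorem result :
    ∃ (L : Type) (_ : LinearOrder L), Nonempty L ∧
      (∀ x : L, ¬ (rayTopology L).IsOpen {x}) ∧
      ∃ B : Set (Set L), IsBase (rayTopology L) B ∧ (∀ U ∈ B, U.Nonempty) ∧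
        ∀ B₀ B₁ : Set (Set L), B₀ ∪ B₁ = B → Disjoint B₀ B₁ →
          ¬ (IsBase (rayTopology L) B₀ ∧ IsBase (rayTopology L) B₁) := by
  refine ⟨Pool.Agent.Lib.MP_14c6b5_gt.L, inferInstance,
    ⟨Pool.Agent.Lib.MP_14c6b5_gt.pt fun _ => ⊤⟩, ?_, ?_⟩
  · rw [rayTopology_eq]
    exact Pool.Agent.Lib.MP_14c6b5_gt.no_isolated
  · rw [rayTopology_eq]
    have hb := Pool.Agent.Lib.MP_14c6b5_gt.isBasis
    refine ⟨Pool.Agent.Lib.MP_14c6b5_gt.base \ {∅}, ?_, ?_, ?_⟩
    · exact (isBase_iff _).2 hb.sdiff_empty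
    · intro U hU
      exact nonempty_iff_ne_empty.2 hU.2
    · rintro B₀ B₁ hU hD ⟨h0, h1⟩
      have h0' := (isBase_iff (τ := Pool.Agent.Lib.MP_14c6b5_gt.instTopologicalSpaceL) _).1 h0
      have h1' := (isBase_iff (τ := Pool.Agent.Lib.MP_14c6b5_gt.instTopologicalSpaceL) _).1 h1
      have hs0 : B₀ ⊆ Pool.Agent.Lib.MP_14c6b5_gt.base := fun U hU' => by
        have : U ∈ B₀ ∪ B₁ := Or.inl hU'
        rw [hU] at this
        exact this.1
      refine Pool.Agent.Lib.MP_14c6b5_gt.not_resolvable B₀ hs0 h0' ?_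
      refine isTopologicalBasis_of_isOpen_of_nhds (fun U hU' => hb.isOpen hU'.1) ?_
      intro a u ha hu
      obtain ⟨V, hV, haV, hVu⟩ := h1'.exists_subset_of_mem_open ha hu
      refine ⟨V, ⟨?_, fun hV0 => Set.disjoint_left.1 hD hV0 hV⟩, haV, hVu⟩
      have : V ∈ B₀ ∪ B₁ := Or.inr hV
      rw [hU] at this
      exact this.1

end Pool.Agent.Results.MP_14c6b5_gt.NonResolvableBase
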